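import Pool.Agent.H802R2.SlitPair

/-!
# Harmonic mappings of the disk with prescribed dilatation are not unique

There are a simply connected domain `Ω ≠ ℂ` (the plane minus two horizontal half-lines), a point
`w₀ ∈ Ω` and an analytic `ω : 𝔻 → 𝔻` for which there are two distinct univalent sense-preserving
harmonic mappings of the unit disk onto `Ω`, both with dilatation `ω`, both with `f 0 = w₀` and
`f_z 0 > 0`.
-/

open Complex Set Filter Topology Metric Pool.Agent.H802R2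

namespace Pool.Agent.Results.MP_35dab7_an.NonUnique

/-- `f` is a solution for `(Ω, ω, w₀)`: it is injective on the open unit disk `𝔻`, maps `𝔻` onto
`Ω`, `f 0 = w₀`, and `f = h + conj g` on `𝔻` with `h, g` analytic in `𝔻`, `|g'| < |h'|`
(sense-preserving), `ω = g' / h'` (the dilatation) and `f_z 0 = h' 0 > 0`. -/
def IsSolution (Ω : Set ℂ) (ω : ℂ → ℂ) (w₀ : ℂ) (f : ℂ → ℂ) : Prop :=
  InjOn f (ball 0 1) ∧ f '' ball 0 1 = Ω ∧ f 0 = w₀ ∧
    ∃ h g : ℂ → ℂ, DifferentiableOn ℂ h (ball 0 1) ∧ DifferentiableOn ℂ g (ball 0 1) ∧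
      (∀ z ∈ ball (0 : ℂ) 1, f z = h z + (starRingEnd ℂ) (g z)) ∧
      (∀ z ∈ ball (0 : ℂ) 1, ‖deriv g z‖ < ‖deriv h z‖) ∧
      (∀ z ∈ ball (0 : ℂ) 1, ω z = deriv g z / deriv h z) ∧
      0 < (deriv h 0).re ∧ (deriv h 0).im = 0

/-- the derivative of the imaginary part of `h + conj g` along the imaginary axis -/
theorem deriv_im {h g : ℂ → ℂ} {a b : ℝ} (hh : DifferentiableOn ℂ h (ball 0 1))
    (hg : DifferentiableOn ℂ g (ball 0 1)) (ha : deriv h 0 = a) (hb : deriv g 0 = b) :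
    HasDerivAt (fun t : ℝ => (h (t * I) + (starRingEnd ℂ) (g (t * I))).im) (a - b) 0 := by
  have h0 : ball (0:ℂ) 1 ∈ 𝓝 (0:ℂ) := ball_mem_nhds _ one_pos
  have k1 : HasDerivAt h a ((0:ℝ) * I) := by
    have := (hh.differentiableAt h0).hasDerivAt
    rw [ha] at this
    simpa using this
  have k2 : HasDerivAt g b ((0:ℝ) * I) := by
    have := (hg.differentiableAt h0).hasDerivAt
    rw [hb] at this
    simpa using this
  have k3 : HasDerivAt (fun t : ℝ => (t : ℂ) * I) I (0:ℝ) := by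
    simpa using (Complex.ofRealCLM.hasDerivAt (x := (0:ℝ))).mul_const I
  have e1 := Complex.imCLM.hasFDerivAt.comp_hasDerivAt (0:ℝ) (HasDerivAt.comp (0:ℝ) k1 k3)
  have e2 := Complex.imCLM.hasFDerivAt.comp_hasDerivAt (0:ℝ) (HasDerivAt.comp (0:ℝ) k2 k3)
  have e3 := e1.sub e2
  have e4 : (fun t : ℝ => (h (t * I) + (starRingEnd ℂ) (g (t * I))).im) =
      (⇑Complex.imCLM ∘ (h ∘ fun t : ℝ => (t : ℂ) * I)) -
        (⇑Complex.imCLM ∘ (g ∘ fun t : ℝ => (t : ℂ) * I)) := by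
    ext t
    simp
    ring
  rw [e4]
  refine e3.congr_deriv ?_
  simp

/-- **Non-uniqueness.** -/
theorem result : ∃ (Ω : Set ℂ) (w₀ : ℂ) (ω f₁ f₂ : ℂ → ℂ),
    (∃ a b : ℝ, Ω = {w : ℂ | (w.im = Real.pi → a < w.re) ∧ (w.im = 0 → b < w.re)}) ∧
    IsOpen Ω ∧ SimplyConnectedSpace Ω ∧ Ω ≠ univ ∧ w₀ ∈ Ω ∧
    DifferentiableOn ℂ ω (ball 0 1) ∧ MapsTo ω (ball 0 1) (ball 0 1) ∧
    IsSolution Ω ω w₀ f₁ ∧ IsSolution Ω ω w₀ f₂ ∧
    ∃ z ∈ ball (0 : ℂ) 1, f₁ z ≠ f₂ z := by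
  obtain ⟨x, y, s₁, s₂, hx, hy, hs₁, hs₂, hc₁, hc₂, e1, e2⟩ := masses
  set K : ℝ := (FA x y (-1 + I)).re - (FB x y (-1 + I)).re with hK
  have hCA : 0 < CA := by unfold CA; norm_num
  have hCB : 0 < CB := by unfold CB; norm_num
  have hPA : ∀ t : ℂ, 0 < t.im → 1 ≤ (Pf x y (Mf t)).re := fun t ht => Pf_re hx hy (Mf_im ht)
  have hPB : ∀ t : ℂ, 0 < t.im → 1 ≤ (Pf x y t).re := fun t ht => Pf_re hx hy ht
  have hP0 : Pf x y (-1 + I) = ((1 + x + y : ℝ) : ℂ) := by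
    unfold Pf
    rw [two_div_tau]
    have : I * I = -1 := I_mul_I
    push_cast
    linear_combination (-(x:ℂ) - y) * this
  have hM0 : Mf (-1 + I) = -1 + I := by
    have := Mf_nu (z := 0) (by simp)
    rwa [nu_zero, nu_zero] at this
  have hP0A : Pf x y (Mf (-1 + I)) = ((1 + x + y : ℝ) : ℂ) := by rw [hM0, hP0]
  set α₁ : ℝ := (FA x y ((-100 : ℝ) : ℂ)).re with hα₁
  set α₂ : ℝ := (FA x y ((1 / 49 : ℝ) : ℂ)).re with hα₂
  obtain ⟨h₁, g₁, dh₁, dg₁, inj₁, im₁, z₁, lt₁, om₁, d₁, d₁'⟩ :=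
    exists_solution (P := fun t => Pf x y (Mf t)) hCA (by norm_num : (-100 : ℝ) < 0)
      (by norm_num : (0:ℝ) < 1 / 49) critA₁ critA₂ one_pos
      (fun t ht => hasDerivAt_FA x y ht) hPA (FA_tendsto x y (by norm_num))
      (FA_tendsto x y (by norm_num)) norm_lA dPhi_A hP0A
  have hFB' : ∀ t : ℂ, 0 < t.im →
      HasDerivAt (fun s => FB x y s + K) (dPhi CB BB t * Pf x y t) t :=
    fun t ht => (hasDerivAt_FB x y ht).add_const _
  have hlB₁ : Tendsto (fun z => (FB x y z + (K : ℂ)).re) (𝓝[{z : ℂ | 0 < z.im}] (s₁ : ℂ))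
      (𝓝 α₁) := by
    have h1 := (FB_tendsto x y hs₁.ne).add_const K
    have h2 : (FB x y (s₁ : ℂ)).re + K = α₁ := by rw [hK, hα₁]; linarith
    rw [h2] at h1
    refine h1.congr ?_
    intro z
    simp
  have hlB₂ : Tendsto (fun z => (FB x y z + (K : ℂ)).re) (𝓝[{z : ℂ | 0 < z.im}] (s₂ : ℂ))
      (𝓝 α₂) := by
    have h1 := (FB_tendsto x y hs₂.ne').add_const K
    have h2 : (FB x y (s₂ : ℂ)).re + K = α₂ := by rw [hK, hα₂]; linarith
    rw [h2] at h1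
    refine h1.congr ?_
    intro z
    simp
  obtain ⟨h₂, g₂, dh₂, dg₂, inj₂, im₂, z₂, lt₂, om₂, d₂, d₂'⟩ :=
    exists_solution (F := fun s => FB x y s + K) (P := fun t => Pf x y t) hCB hs₁ hs₂ hc₁ hc₂
      one_pos hFB' hPB hlB₁ hlB₂ norm_lB dPhi_B hP0
  have h00 : (0:ℂ) ∈ ball (0:ℂ) 1 := by simp
  have hw : (⟨(FB x y (-1 + I) + (K : ℂ)).re, (Phi CB BB (-1 + I)).im⟩ : ℂ) =
      ⟨(FA x y (-1 + I)).re, (Phi CA BA (-1 + I)).im⟩ := by
    apply Complex.ext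
    · simp [hK]
    · show (Phi CB BB (-1 + I)).im = (Phi CA BA (-1 + I)).im
      rw [Phi_tau_im, Phi_tau_im]
      unfold BB BA CA
      ring
  have hp : (0:ℝ) < 1 + x + y := by linarith
  refine ⟨slitDom α₁ α₂, ⟨(FA x y (-1 + I)).re, (Phi CA BA (-1 + I)).im⟩,
    fun z => (Pf x y (nu lB z) - 1) / (Pf x y (nu lB z) + 1),
    fun z => h₁ z + (starRingEnd ℂ) (g₁ z), fun z => h₂ z + (starRingEnd ℂ) (g₂ z),
    ⟨α₁, α₂, rfl⟩, isOpen_slitDom _ _, simplyConnected_slitDom _ _, slitDom_ne_univ _ _, ?_, ?_,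
    ?_, ?_, ?_, ?_⟩
  · rw [← im₁, ← z₁]
    exact ⟨0, h00, rfl⟩
  · have hden : ∀ z ∈ ball (0:ℂ) 1, Pf x y (nu lB z) + 1 ≠ 0 := by
      intro z hz h
      have h1 := hPB _ (nu_im norm_lB hz)
      have := congrArg Complex.re h
      simp at this
      linarith
    have hnu : DifferentiableOn ℂ (nu lB) (ball 0 1) :=
      fun z hz => (hasDerivAt_nu norm_lB hz).differentiableAt.differentiableWithinAt
    have hPd : DifferentiableOn ℂ (fun z => Pf x y (nu lB z)) (ball 0 1) := by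
      intro z hz
      have h0 : nu lB z ≠ 0 := ne_zero_of_im_pos (nu_im norm_lB hz)
      have h1 : DifferentiableAt ℂ (Pf x y) (nu lB z) := by
        unfold Pf
        fun_prop (disch := exact h0)
      exact (h1.comp z (hasDerivAt_nu norm_lB hz).differentiableAt).differentiableWithinAt
    exact (hPd.sub_const 1).div (hPd.add_const 1) hden
  · intro z hz
    have h1 := lt₂ z hz
    have h2 := om₂ z hz
    have h3 : 0 < ‖deriv h₂ z‖ := lt_of_le_of_lt (norm_nonneg _) h1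
    rw [mem_ball_zero_iff]
    simp only at h2 ⊢
    rw [h2, norm_div, div_lt_one h3]
    exact h1
  · refine ⟨inj₁, im₁, z₁, h₁, g₁, dh₁, dg₁, fun z _ => rfl, lt₁, ?_, ?_, ?_⟩
    · intro z hz
      have := om₁ z hz
      simp only [Mf_nu hz] at this
      exact this
    · rw [d₁, Complex.ofReal_re]
      apply mul_pos (by norm_num)
      linarith
    · rw [d₁, Complex.ofReal_im]
  · refine ⟨inj₂, im₂, z₂.trans hw, h₂, g₂, dh₂, dg₂, fun z _ => rfl, lt₂, om₂, ?_, ?_⟩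
    · rw [d₂, Complex.ofReal_re]
      apply mul_pos (by norm_num)
      linarith
    · rw [d₂, Complex.ofReal_im]
  · by_contra hcon
    push Not at hcon
    have k1 := deriv_im dh₁ dg₁ d₁ d₁'
    have k2 := deriv_im dh₂ dg₂ d₂ d₂'
    have hev : (fun t : ℝ => (h₁ (t * I) + (starRingEnd ℂ) (g₁ (t * I))).im) =ᶠ[𝓝 0]
        (fun t : ℝ => (h₂ (t * I) + (starRingEnd ℂ) (g₂ (t * I))).im) := by
      have h1 : ∀ᶠ t : ℝ in 𝓝 0, (t : ℂ) * I ∈ ball (0:ℂ) 1 := by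
        have hc : ContinuousAt (fun t : ℝ => (t : ℂ) * I) 0 := by fun_prop
        apply hc.eventually_mem
        apply isOpen_ball.mem_nhds
        simp
      filter_upwards [h1] with t ht
      rw [hcon _ ht]
    have k3 := (hev.hasDerivAt_iff.2 k2).unique k1
    nlinarith

end Pool.Agent.Results.MP_35dab7_an.NonUnique
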